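import Pool.Agent.H856Z.WordMain

namespace Pool.Agent.Results.MP_215b2d_al.OddWord

open Pool.Agent.H856Z.Word MatrixGroups

/-- There is a word of odd length in the free group of rank two, not a proper power, whose word map
is not surjective on `PSL(2, F_q)` for infinitely many prime powers `q`. -/
theorem result : ∃ w : FreeGroup (Fin 2), Odd (FreeGroup.norm w) ∧ ¬ IsProperPower w ∧
    {q : ℕ | IsPrimePow q ∧ ∀ (F : Type) [Field F] [Fintype F], Fintype.card F = q →
      ¬ Function.Surjective (wordMap w (Matrix.ProjectiveSpecialLinearGroup (Fin 2) F))}.Infinite :=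
  main

end Pool.Agent.Results.MP_215b2d_al.OddWord
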